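import Pool.Agent.Helper62.DSH.StA

/-!
# Module WBR of project DSH: the Weitzenboeck form of alternating maps
-/

set_option autoImplicit false

open Set Filter Topology MeasureTheory
open Helper62.LH Helper62.DSH
open scoped ContDiff ENNReal

noncomputable section

namespace Pool.Agent.Helper84.DSH

/-- the multilinear map with components `t` in the orthonormal basis `F` -/
def amm {n m : ℕ} (g : Bl n) (F : Fin n → E n) (t : Tn n (m + 1)) :
    ContinuousMultilinearMap ℝ (fun _ : Fin (m + 1) => E n) ℝ :=
  ∑ I : Fin (m + 1) → Fin n, t I •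
    (ContinuousMultilinearMap.mkPiAlgebra ℝ (Fin (m + 1)) ℝ).compContinuousLinearMap
      (fun k => g.flip (F (I k)))

theorem amm_apply {n m : ℕ} (g : Bl n) (F : Fin n → E n) (t : Tn n (m + 1))
    (v : Fin (m + 1) → E n) :
    amm g F t v = ∑ I : Fin (m + 1) → Fin n, t I * ∏ k, g (v k) (F (I k)) := by
  simp [amm]

theorem amm_alt {n m : ℕ} (g : Bl n) (F : Fin n → E n) (t : Tn n (m + 1)) (ht : Altn t)
    (v : Fin (m + 1) → E n) (p q : Fin (m + 1)) (hv : v p = v q) (hpq : p ≠ q) :
    amm g F t v = 0 := by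
  rw [amm_apply]
  have h1 : ∑ I : Fin (m + 1) → Fin n, t I * ∏ k, g (v k) (F (I k)) =
      ∑ I : Fin (m + 1) → Fin n, t (I ∘ Equiv.swap p q) *
        ∏ k, g (v k) (F ((I ∘ Equiv.swap p q) k)) := by
    refine (Equiv.sum_comp (Equiv.arrowCongr (Equiv.swap p q) (Equiv.refl (Fin n)))
      (fun I => t I * ∏ k, g (v k) (F (I k)))).symm.trans ?_
    refine Finset.sum_congr rfl fun I _ => ?_
    have : (Equiv.arrowCongr (Equiv.swap p q) (Equiv.refl (Fin n))) I
        = I ∘ Equiv.swap p q := by
      ext k
      simp [Equiv.arrowCongr]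
    rw [this]
  have h2 : ∀ I : Fin (m + 1) → Fin n, ∏ k, g (v k) (F ((I ∘ Equiv.swap p q) k)) =
      ∏ k, g (v k) (F (I k)) := by
    intro I
    rw [← Equiv.prod_comp (Equiv.swap p q) (fun k => g (v k) (F (I k)))]
    refine Finset.prod_congr rfl fun k _ => ?_
    have hk : v (Equiv.swap p q k) = v k := by
      rcases eq_or_ne k p with rfl | h1
      · simp [hv]
      · rcases eq_or_ne k q with rfl | h2
        · simp [hv]
        · rw [Equiv.swap_apply_of_ne_of_ne h1 h2]
    simp only [Function.comp_apply]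
    rw [hk]
  have h3 : ∀ I : Fin (m + 1) → Fin n, t (I ∘ Equiv.swap p q) = - t I := by
    intro I
    rw [ht I (Equiv.swap p q), Equiv.Perm.sign_swap hpq]
    simp
  have h4 : ∑ I : Fin (m + 1) → Fin n, t I * ∏ k, g (v k) (F (I k)) =
      -∑ I : Fin (m + 1) → Fin n, t I * ∏ k, g (v k) (F (I k)) := by
    conv_lhs => rw [h1]
    rw [← Finset.sum_neg_distrib]
    refine Finset.sum_congr rfl fun I _ => ?_
    rw [h2, h3]
    ring
  linarith

/-- the alternating map with components `t` in the orthonormal basis `F` -/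
def am {n m : ℕ} (g : Bl n) (F : Fin n → E n) (t : Tn n (m + 1)) (ht : Altn t) :
    E n [⋀^Fin (m + 1)]→L[ℝ] ℝ :=
  { amm g F t with
    map_eq_zero_of_eq' := fun v p q hv hpq => amm_alt g F t ht v p q hv hpq }

theorem am_apply {n m : ℕ} (g : Bl n) (F : Fin n → E n) (t : Tn n (m + 1)) (ht : Altn t)
    (v : Fin (m + 1) → E n) :
    am g F t ht v = ∑ I : Fin (m + 1) → Fin n, t I * ∏ k, g (v k) (F (I k)) :=
  amm_apply g F t v

theorem am_basis {n m : ℕ} (g : Bl n) (F : Fin n → E n)
    (ho : ∀ i j, g (F i) (F j) = if i = j then 1 else 0)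
    (t : Tn n (m + 1)) (ht : Altn t) (I : Fin (m + 1) → Fin n) :
    am g F t ht (fun k => F (I k)) = t I := by
  rw [am_apply, Finset.sum_eq_single I]
  · simp [ho]
  · intro J _ hJ
    obtain ⟨k, hk⟩ : ∃ k, J k ≠ I k := by
      by_contra h
      push Not at h
      exact hJ (funext h)
    rw [Finset.prod_eq_zero (Finset.mem_univ k), mul_zero]
    rw [ho, if_neg (fun h => hk h.symm)]
  · intro h
    exact absurd (Finset.mem_univ I) h

theorem rho_cons {n m : ℕ} (A : Fin n → Fin n → ℝ) (t : Tn n (m + 1)) (b : Fin n)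
    (K : Fin m → Fin n) :
    rho A t (Fin.cons b K) = (∑ l, A b l * t (Fin.cons l K)) +
      ∑ c, ∑ l, A (K c) l * t (Fin.cons b (Function.update K c l)) := by
  unfold rho
  rw [Fin.sum_univ_succ]
  congr 1
  · refine Finset.sum_congr rfl fun l _ => ?_
    have h : Function.update (Fin.cons b K : Fin (m + 1) → Fin n) 0 l
        = (Fin.cons l K : Fin (m + 1) → Fin n) := by
      rw [Fin.update_cons_zero]
    rw [Fin.cons_zero, h]
  · refine Finset.sum_congr rfl fun c _ => Finset.sum_congr rfl fun l _ => ?_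
    have h : Function.update (Fin.cons b K : Fin (m + 1) → Fin n) c.succ l
        = (Fin.cons b (Function.update K c l) : Fin (m + 1) → Fin n) := by
      rw [Fin.cons_update]
    rw [Fin.cons_succ, h]

theorem hWbr : TWbr := by
  intro n m g Γ F G _hg _hc hF x hW t ht
  have hO := hF.onb x
  set f : Fin n → E n := fun a => F a x with hf
  have ho : ∀ i j, g x (f i) (f j) = if i = j then 1 else 0 := hO.orth
  have key := hW f ho (am (g x) f t ht)
  set α := am (g x) f t ht with hα
  have hbas : ∀ I : Fin (m + 1) → Fin n, α (fun k => f (I k)) = t I :=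
    am_basis (g x) f ho t ht
  have hR : ∀ a b c, Rm Γ x (f a) (f b) (f c) = ∑ l, Rc g Γ F x a b c l • f l := by
    intro a b c
    rw [← hO.expd (Rm Γ x (f a) (f b) (f c))]
    rfl
  have hcons : ∀ (b : Fin n) (K : Fin m → Fin n),
      α (Fin.cons (f b) (fun i => f (K i))) = t (Fin.cons b K) := by
    intro b K
    rw [← hbas (Fin.cons b K)]
    congr 1
    ext1 k
    refine Fin.cases ?_ (fun i => ?_) k
    · simp
    · simp
  -- value of alpha at a linear combination in the first place
  have hlin1 : ∀ (r : Fin n → ℝ) (K : Fin m → Fin n),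
      α (Fin.cons (∑ l, r l • f l) (fun i => f (K i))) = ∑ l, r l * t (Fin.cons l K) := by
    intro r K
    have h0 : (Fin.cons (∑ l, r l • f l) (fun i => f (K i)) : Fin (m + 1) → E n) =
        Function.update (Fin.cons 0 (fun i => f (K i)) : Fin (m + 1) → E n) 0
          (∑ l, r l • f l) := by
      rw [Fin.update_cons_zero]
    rw [h0]
    have h1 := (α.toAlternatingMap.toMultilinearMap).map_update_sum (Finset.univ) 0
      (fun l => r l • f l) (Fin.cons 0 (fun i => f (K i)) : Fin (m + 1) → E n)
    refine Eq.trans h1 ?_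
    refine Finset.sum_congr rfl fun l _ => ?_
    have h2 := (α.toAlternatingMap.toMultilinearMap).map_update_smul
      (Fin.cons 0 (fun i => f (K i)) : Fin (m + 1) → E n) 0 (r l) (f l)
    refine Eq.trans h2 ?_
    rw [Fin.update_cons_zero]
    exact congrArg (fun z => r l * z) (hcons l K)
  have hlin2 : ∀ (a : Fin n) (r : Fin n → ℝ) (K : Fin m → Fin n) (c : Fin m),
      α (Fin.cons (f a) (Function.update (fun i => f (K i)) c (∑ l, r l • f l))) =
        ∑ l, r l * t (Fin.cons a (Function.update K c l)) := by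
    intro a r K c
    have h0 : ∀ v : E n, (Fin.cons (f a) (Function.update (fun i => f (K i)) c v) :
        Fin (m + 1) → E n) =
        Function.update (Fin.cons (f a) (fun i => f (K i)) : Fin (m + 1) → E n) c.succ v := by
      intro v
      rw [Fin.cons_update]
    rw [h0]
    have h1 := (α.toAlternatingMap.toMultilinearMap).map_update_sum (Finset.univ) c.succ
      (fun l => r l • f l) (Fin.cons (f a) (fun i => f (K i)) : Fin (m + 1) → E n)
    refine Eq.trans h1 ?_
    refine Finset.sum_congr rfl fun l _ => ?_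
    have h2 := (α.toAlternatingMap.toMultilinearMap).map_update_smul
      (Fin.cons (f a) (fun i => f (K i)) : Fin (m + 1) → E n) c.succ (r l) (f l)
    refine Eq.trans h2 ?_
    rw [← h0]
    have h3 : (Function.update (fun i => f (K i)) c (f l)) =
        fun i => f (Function.update K c l i) := by
      ext1 i
      rcases eq_or_ne i c with rfl | h
      · simp
      · simp [h]
    rw [h3]
    exact congrArg (fun z => r l * z) (hcons a _)
  have hWg : Wg Γ x f α = (m.factorial : ℝ) * Wz (Rc g Γ F x) t := by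
    unfold Wg Wz ipt
    rw [Finset.sum_comm, Finset.mul_sum]
    refine Finset.sum_congr rfl fun a _ => ?_
    rw [Finset.mul_sum]
    refine Finset.sum_congr rfl fun b _ => ?_
    have hm : (m.factorial : ℝ) ≠ 0 := by positivity
    rw [mul_div_cancel₀ _ hm]
    refine Finset.sum_congr rfl fun K _ => ?_
    rw [hcons, hR, hlin1]
    have : ∀ c, α (Fin.cons (f b) (Function.update (fun i => f (K i)) c
        (Rm Γ x (f a) (f b) (f (K c))))) =
        ∑ l, Rc g Γ F x a b (K c) l * t (Fin.cons b (Function.update K c l)) := by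
      intro c
      rw [hR, hlin2]
    simp only [this]
    unfold ct
    rw [rho_cons]
  rw [hWg] at key
  have hm : (0 : ℝ) < (m.factorial : ℝ) := by positivity
  exact nonneg_of_mul_nonneg_right key hm

end Pool.Agent.Helper84.DSH
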